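import Mathlib
import Pool.Agent.H81.HM.Wt3

/-!
# MP_2a1a00_nt, Q2: the conjectured asymptotics for twisted hybrid moments of error terms is false

For every `𝔏` in the Selberg class that satisfies the mean-square hypothesis of the problem there are
`64` entire elements of the Selberg class with real coefficients, of integer degrees `d₁ < ... < d₆₄`, each of which
has a second moment asymptotic (with a positive constant and a power saving), for which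
`∫_1^T ∏ E_{f_j}(x)^2 |𝔏(1/2+ix)|² dx` exceeds `c T ^ (1 + σ + η)` for some `c, η > 0` and arbitrarily large `T`;
here `σ = ∑ 2 (d_j - 1) / (2 d_j)`.
-/

set_option autoImplicit false

namespace Pool.Agent.H81.OutOfList.EvenTwistedMomentsFail

open Pool.Agent.H13R3.EM (Sel)

/-- `|𝔏(1/2+ix)|²` -/
noncomputable def W (L : Sel) (x : ℝ) : ℝ := ‖L.G (1 / 2 + x * Complex.I) / (1 / 2 + x * Complex.I - 1) ^ L.m0‖ ^ 2

/-- `∫_1^T |𝔏(1/2+it)|² dt = T P(log T) + O(T^(1-η))` for some `η > 0`, and `P ≠ 0`. -/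
def MeanSquare (L : Sel) (P : Polynomial ℝ) : Prop := P ≠ 0 ∧ ∃ η : ℝ, 0 < η ∧ ∃ C : ℝ, ∀ T : ℝ, 1 ≤ T →
  |(∫ x in (1:ℝ)..T, W L x) - T * P.eval (Real.log T)| ≤ C * T ^ (1 - η)

/-- `F`, of degree `d`, has an `ℓ`-th moment asymptotic with the constant `C ≠ 0`: for some `δ > 0` and every `ε > 0`,
`∫_1^T E_F(x) ^ ℓ dx = C T ^ (1 + ℓ (d - 1) / (2 d)) + O(T ^ (1 + ℓ (d - 1) / (2 d) - δ + ε))`. -/
def Moment (F : Sel) (d ℓ : ℕ) (C : ℂ) : Prop :=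
  C ≠ 0 ∧ ∃ δ : ℝ, 0 < δ ∧ ∀ ε : ℝ, 0 < ε → ∃ K : ℝ, ∀ T : ℝ, 1 ≤ T →
    ‖(∫ x in (1:ℝ)..T, F.err x ^ ℓ) - C * ((T ^ (1 + (ℓ:ℝ) * ((d:ℝ) - 1) / (2 * (d:ℝ))) : ℝ) : ℂ)‖ ≤
      K * T ^ (1 + (ℓ:ℝ) * ((d:ℝ) - 1) / (2 * (d:ℝ)) - δ + ε)

/-- the exponent `σ = ∑ ℓ_j (d_j - 1) / (2 d_j)` -/
noncomputable def sig {k : ℕ} (d ℓ : Fin k → ℕ) : ℝ := ∑ j, (ℓ j : ℝ) * ((d j : ℝ) - 1) / (2 * (d j : ℝ))

/-- `∫_1^T ∏ E_{f_j}(x) ^ ℓ_j |𝔏(1/2+ix)|² dx = C T ^ (1 + σ) R(log T) + O(T ^ (1 + σ - δ + ε))` for some `δ > 0` and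
every `ε > 0`. -/
def Twisted (L : Sel) {k : ℕ} (d ℓ : Fin k → ℕ) (F : Fin k → Sel) (C : ℂ) (R : Polynomial ℂ) : Prop :=
  ∃ δ : ℝ, 0 < δ ∧ ∀ ε : ℝ, 0 < ε → ∃ K : ℝ, ∀ T : ℝ, 1 ≤ T →
    ‖(∫ x in (1:ℝ)..T, (∏ j, (F j).err x ^ ℓ j) * ((W L x : ℝ) : ℂ)) -
        C * ((T ^ (1 + sig d ℓ) : ℝ) : ℂ) * R.eval ((Real.log T : ℝ) : ℂ)‖ ≤
      K * T ^ (1 + sig d ℓ - δ + ε)

/-- Q2 of the problem for the fixed twist `𝔏` with the mean-value polynomial `P`: for all `k ≥ 2`,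
`2 ≤ d_1 < ... < d_k`, `ℓ_j ≥ 2` there is `C₁ ≠ 0` such that for all elements `F_j` of the Selberg class of degree
`d_j` having an `ℓ_j`-th moment asymptotic with the constant `C_j`, the twisted moment has the asymptotics with the
constant `C₁ ∏ C_j` and a polynomial `R` of degree `deg P`. -/
def Q2For (L : Sel) (P : Polynomial ℝ) : Prop := ∀ (k : ℕ) (d ℓ : Fin k → ℕ), 2 ≤ k → StrictMono d →
  (∀ j, 2 ≤ d j) → (∀ j, 2 ≤ ℓ j) → ∃ C₁ : ℂ, C₁ ≠ 0 ∧ ∀ (F : Fin k → Sel) (C : Fin k → ℂ),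
    (∀ j, (F j).deg = (d j : ℝ)) → (∀ j, Moment (F j) (d j) (ℓ j) (C j)) →
    ∃ R : Polynomial ℂ, R.natDegree = P.natDegree ∧ Twisted L d ℓ F (C₁ * ∏ j, C j) R

/-- Q2 of the problem. -/
def Q2 : Prop := ∀ (L : Sel) (P : Polynomial ℝ), MeanSquare L P → Q2For L P

/-- The failure for the twist `𝔏`: data with `k = 64` and `ℓ_j = 2` which satisfy the hypotheses of Q2, with the
twisted integral exceeding `c T ^ (1 + σ + η)` for arbitrarily large `T`, hence with no asymptotics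
`C T ^ (1 + σ) R(log T)` for any constant `C` and any polynomial `R`. -/
def Failure (L : Sel) : Prop := ∃ (d : Fin 64 → ℕ) (F : Fin 64 → Sel) (C : Fin 64 → ℝ), StrictMono d ∧ (∀ j, 2 ≤ d j) ∧
  (∀ j, (F j).deg = (d j : ℝ)) ∧ (∀ j, (F j).m0 = 0) ∧ (∀ j, ∀ n : ℕ, 1 ≤ n → ((F j).a n).im = 0) ∧
  (∀ j, 0 < C j ∧ Moment (F j) (d j) 2 (C j : ℂ)) ∧
  (∃ η c : ℝ, 0 < η ∧ 0 < c ∧ ∀ T₀ : ℝ, ∃ T : ℝ, T₀ ≤ T ∧ 1 ≤ T ∧ c * T ^ (1 + sig d (fun _ => 2) + η) ≤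
    ‖∫ x in (1:ℝ)..T, (∏ j, (F j).err x ^ 2) * ((W L x : ℝ) : ℂ)‖) ∧
  ∀ (C' : ℂ) (R : Polynomial ℂ), ¬ Twisted L d (fun _ => 2) F C' R

theorem failure {L : Sel} {P : Polynomial ℝ} (hL : MeanSquare L P) : Failure L := by
  obtain ⟨hP, η₀, hη₀, C₀, hC₀⟩ := hL
  obtain ⟨d, F, C, hd, hd2, hdeg, hm, him, hM, η, c, hη, hc, h⟩ :=
    Pool.Agent.H81.HM.final_w (w := W L) (fun x => sq_nonneg _)
      (fun T _ => (Pool.Agent.H13R3.EM.val_cont L).intervalIntegrable _ _) hP hη₀ hC₀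
  exact ⟨d, F, C, hd, hd2, hdeg, hm, him, fun j => ⟨(hM j).1, by exact_mod_cast (hM j).1.ne', (hM j).2⟩,
    ⟨η, c, hη, hc, h⟩, fun C' R => Pool.Agent.H81.HM.no_asym_poly hη hc h C' R⟩

/-- **Q2 is false**, and it fails for every admissible twist. -/
theorem result : ¬ Q2 ∧ ∀ (L : Sel) (P : Polynomial ℝ), MeanSquare L P → ¬ Q2For L P ∧ Failure L := by
  have key : ∀ (L : Sel) (P : Polynomial ℝ), MeanSquare L P → ¬ Q2For L P ∧ Failure L := by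
    intro L P hL
    refine ⟨fun hQ => ?_, failure hL⟩
    obtain ⟨d, F, C, hd, hd2, hdeg, -, -, hM, -, h⟩ := failure hL
    obtain ⟨C₁, -, hC⟩ := hQ 64 d (fun _ => 2) (by norm_num) hd hd2 (fun _ => le_rfl)
    obtain ⟨R, -, hR⟩ := hC F (fun j => (C j : ℂ)) hdeg fun j => (hM j).2
    exact h _ R hR
  refine ⟨fun hQ => ?_, key⟩
  obtain ⟨hP0, hη, C, hC⟩ := Pool.Agent.H13R3.EM.oneSel_meanSq
  have h1 : MeanSquare Pool.Agent.H13R3.EM.oneSel 1 := ⟨hP0, 1, hη, C, hC⟩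
  exact (key _ _ h1).1 (hQ _ _ h1)

end Pool.Agent.H81.OutOfList.EvenTwistedMomentsFail
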