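import Pool.Agent.H81.OutOfList.RCSets

/-!
# Simultaneous closeness of unimodular multiplicative functions
-/

set_option autoImplicit false

namespace Pool.Agent.H81.RC

/-- pigeonhole -/
lemma pigeon {ℓ : ℕ} {ε : ℝ} (hε : 0 < ε) : ∃ k : ℕ, 0 < k ∧ ∀ v : ℕ → Fin ℓ → ℂ, (∀ i < k, ∀ r, ‖v i r‖ = 1) →
    ∃ i j, i < j ∧ j < k ∧ ∑ r, ‖v i r - v j r‖ < ε := by
  obtain ⟨e, he⟩ : ∃ e : ℝ, e = ε / (2 * ((ℓ : ℝ) + 1)) := ⟨_, rfl⟩
  have he0 : 0 < e := by rw [he]; positivity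
  obtain ⟨t, -, htf, hcov⟩ := (isCompact_closedBall (0 : Fin ℓ → ℂ) 1).finite_cover_balls he0
  refine ⟨htf.toFinset.card + 1, by omega, fun v hv => ?_⟩
  have hmem : ∀ i, i < htf.toFinset.card + 1 → ∃ x ∈ t, v i ∈ Metric.ball x e := by
    intro i hi
    have h1 : v i ∈ Metric.closedBall (0 : Fin ℓ → ℂ) 1 := by
      rw [mem_closedBall_zero_iff, pi_norm_le_iff_of_nonneg zero_le_one]
      intro r
      exact (hv i hi r).le
    have h2 := hcov h1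
    simpa using h2
  choose! g hgt hgb using hmem
  have hcard : htf.toFinset.card < (Finset.range (htf.toFinset.card + 1)).card := by
    rw [Finset.card_range]
    omega
  obtain ⟨i, hi, j, hj, hij, hg⟩ := Finset.exists_ne_map_eq_of_card_lt_of_maps_to hcard (f := g)
    (fun i hi => by
      rw [Finset.mem_coe, Set.Finite.mem_toFinset]
      exact hgt i (Finset.mem_range.1 hi))
  rw [Finset.mem_range] at hi hj
  have key : ∀ i j, i < htf.toFinset.card + 1 → j < htf.toFinset.card + 1 → g i = g j →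
      ∑ r, ‖v i r - v j r‖ < ε := by
    intro i j hi hj hg
    have h1 : dist (v i) (v j) < 2 * e := by
      have a1 := hgb i hi
      have a2 := hgb j hj
      rw [Metric.mem_ball] at a1 a2
      rw [hg] at a1
      calc dist (v i) (v j) ≤ dist (v i) (g j) + dist (v j) (g j) := dist_triangle_right _ _ _
        _ < 2 * e := by linarith
    have h2 : ∀ r, ‖v i r - v j r‖ ≤ 2 * e := by
      intro r
      rw [← dist_eq_norm]
      exact (dist_le_pi_dist _ _ r).trans h1.le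
    calc ∑ r, ‖v i r - v j r‖ ≤ ∑ _r : Fin ℓ, 2 * e := Finset.sum_le_sum fun r _ => h2 r
      _ = ℓ * (2 * e) := by rw [Finset.sum_const, Finset.card_univ, Fintype.card_fin, nsmul_eq_mul]
      _ < ε := by
          rw [he]
          have : (0:ℝ) ≤ ℓ := Nat.cast_nonneg _
          have h3 : (ℓ:ℝ) * (2 * (ε / (2 * ((ℓ : ℝ) + 1)))) = ε * (ℓ / (ℓ + 1)) := by
            field_simp
          rw [h3]
          have h4 : (ℓ:ℝ) / (ℓ + 1) < 1 := by
            rw [div_lt_one (by positivity)]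
            linarith
          nlinarith
  rcases Nat.lt_or_ge i j with h | h
  · exact ⟨i, j, h, hj, key i j hi hj hg⟩
  · exact ⟨j, i, by omega, hi, key j i hj hi hg.symm⟩

lemma core {a : ℕ} (ha : 0 < a) {b d : ℤ} (hbd : d < b) (hg : Int.gcd ((Int.gcd (a : ℤ) b : ℕ) : ℤ) d = 1)
    (hdiv : (a : ℤ) ∣ b * d) {ℓ : ℕ} {f : Fin ℓ → ℕ → ℂ}
    (hf : ∀ j, (∀ m n : ℕ, 0 < m → 0 < n → f j (m * n) = f j m * f j n) ∧ (∀ n : ℕ, 0 < n → ‖f j n‖ = 1))
    {ε : ℝ} (hε : 0 < ε) (N : ℕ) : ∃ n : ℕ, N ≤ n ∧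
      ∑ j, ‖f j (((a : ℤ) * (n : ℤ) + b).toNat) - f j (((a : ℤ) * (n : ℤ) + d).toNat)‖ < ε := by
  obtain ⟨a₁, ha1⟩ : ∃ a₁ : ℤ, a₁ = ((Int.gcd (a : ℤ) b : ℕ) : ℤ) := ⟨_, rfl⟩
  have ha1pos : 0 < a₁ := by
    rw [ha1]
    exact_mod_cast Int.gcd_pos_of_ne_zero_left b (by exact_mod_cast ha.ne')
  obtain ⟨a₂, ha2⟩ : a₁ ∣ (a : ℤ) := by rw [ha1]; exact Int.gcd_dvd_left _ _
  obtain ⟨b', hb'⟩ : a₁ ∣ b := by rw [ha1]; exact Int.gcd_dvd_right _ _
  have haZ : (0:ℤ) < a := by exact_mod_cast ha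
  have ha2pos : 0 < a₂ := by
    by_contra hneg
    push Not at hneg
    have : a₁ * a₂ ≤ 0 := mul_nonpos_of_nonneg_of_nonpos ha1pos.le hneg
    rw [← ha2] at this
    linarith
  have hcopd : IsCoprime a₁ d := by
    rw [Int.isCoprime_iff_gcd_eq_one, ha1]
    exact hg
  have hcopb : IsCoprime a₂ b' := by
    rw [Int.isCoprime_iff_gcd_eq_one]
    have h1 : ((Int.gcd (a : ℤ) b : ℕ) : ℤ) = a₁ := ha1.symm
    have h2 : Int.gcd (a₁ * a₂) (a₁ * b') = a₁.natAbs * Int.gcd a₂ b' := Int.gcd_mul_left a₁ a₂ b'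
    rw [← ha2, ← hb'] at h2
    have h3 : Int.gcd (a : ℤ) b = a₁.natAbs := by
      rw [← h1]
      simp
    rw [h3] at h2
    have h4 : 0 < a₁.natAbs := Int.natAbs_pos.2 ha1pos.ne'
    exact Nat.eq_of_mul_eq_mul_left h4 (by rw [mul_one]; exact h2.symm)
  have ha2d : a₂ ∣ d := by
    have h1 : a₁ * a₂ ∣ a₁ * (b' * d) := by
      rw [← ha2, ← mul_assoc, ← hb']
      exact hdiv
    have h2 : a₂ ∣ b' * d := (mul_dvd_mul_iff_left ha1pos.ne').1 h1
    exact hcopb.dvd_of_dvd_mul_left h2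
  have hcop : IsCoprime a₁ a₂ := IsCoprime.of_isCoprime_of_dvd_right hcopd ha2d
  obtain ⟨k, hk, hpig⟩ := pigeon (ℓ := ℓ) hε
  obtain ⟨c, hc0, hc⟩ := sets_large (h := b - d) ha1pos ha2pos hcop ⟨b', hb'⟩ ha2d (by linarith) rfl k hk (N : ℤ)
  obtain ⟨i, j, hij, hj, hsum⟩ := hpig (fun i r => f r (c i).toNat) (fun i hi r => by
    apply (hf r).2
    have := hc0 i hi
    omega)
  obtain ⟨n, hn, hpos, hrat⟩ := hc i j hij hj
  refine ⟨n.toNat, by omega, ?_⟩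
  have hn0 : 0 ≤ n := by omega
  have hnn : ((n.toNat : ℕ) : ℤ) = n := Int.toNat_of_nonneg hn0
  rw [hnn, ha2]
  refine lt_of_le_of_lt (Finset.sum_le_sum fun r _ => le_of_eq ?_) hsum
  have hi0 := hc0 i (hij.trans hj)
  have hj0 := hc0 j hj
  have hposb : 0 < a₁ * a₂ * n + b := by linarith
  have e1 : (c j).toNat * (a₁ * a₂ * n + d).toNat = (c i).toNat * (a₁ * a₂ * n + b).toNat := by
    have : (((c j).toNat * (a₁ * a₂ * n + d).toNat : ℕ) : ℤ) = (((c i).toNat * (a₁ * a₂ * n + b).toNat : ℕ) : ℤ) := by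
      push_cast
      rw [Int.toNat_of_nonneg hi0.le, Int.toNat_of_nonneg hj0.le, Int.toNat_of_nonneg hpos.le,
        Int.toNat_of_nonneg hposb.le]
      exact hrat
    exact_mod_cast this
  have p1 : 0 < (c i).toNat := by omega
  have p2 : 0 < (c j).toNat := by omega
  have p3 : 0 < (a₁ * a₂ * n + d).toNat := by omega
  have p4 : 0 < (a₁ * a₂ * n + b).toNat := by omega
  have e2 : f r (c j).toNat * f r (a₁ * a₂ * n + d).toNat = f r (c i).toNat * f r (a₁ * a₂ * n + b).toNat := by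
    rw [← (hf r).1 _ _ p2 p3, ← (hf r).1 _ _ p1 p4, e1]
  calc ‖f r (a₁ * a₂ * n + b).toNat - f r (a₁ * a₂ * n + d).toNat‖
      = ‖f r (c i).toNat‖ * ‖f r (a₁ * a₂ * n + b).toNat - f r (a₁ * a₂ * n + d).toNat‖ := by
        rw [(hf r).2 _ p1, one_mul]
    _ = ‖f r (c i).toNat * f r (a₁ * a₂ * n + b).toNat - f r (c i).toNat * f r (a₁ * a₂ * n + d).toNat‖ := by
        rw [← norm_mul, mul_sub]
    _ = ‖(f r (c j).toNat - f r (c i).toNat) * f r (a₁ * a₂ * n + d).toNat‖ := by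
        rw [← e2, sub_mul]
    _ = ‖f r (c j).toNat - f r (c i).toNat‖ := by rw [norm_mul, (hf r).2 _ p3, mul_one]
    _ = ‖f r (c i).toNat - f r (c j).toNat‖ := norm_sub_rev _ _

theorem main : ∀ a : ℕ, 0 < a → ∀ b d : ℤ,
      Int.gcd ((Int.gcd (a : ℤ) b : ℕ) : ℤ) d = 1 →
      (b = d ∨ (a : ℤ) ∣ b * d) →
      ∀ ℓ : ℕ, ∀ f : Fin ℓ → ℕ → ℂ,
        (∀ j, (∀ m n : ℕ, 0 < m → 0 < n → f j (m * n) = f j m * f j n) ∧
              (∀ n : ℕ, 0 < n → ‖f j n‖ = 1)) →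
        ∀ ε : ℝ, 0 < ε → ∀ N : ℕ, ∃ n : ℕ, N ≤ n ∧
          ∑ j, ‖f j (((a : ℤ) * (n : ℤ) + b).toNat) - f j (((a : ℤ) * (n : ℤ) + d).toNat)‖ < ε := by
  intro a ha b d hg hor ℓ f hf ε hε N
  rcases lt_trichotomy b d with h | h | h
  · have hdiv : (a : ℤ) ∣ d * b := by
      rcases hor with h' | h'
      · omega
      · rwa [mul_comm]
    have hg' : Int.gcd ((Int.gcd (a : ℤ) d : ℕ) : ℤ) b = 1 := by
      rw [Int.gcd_assoc, Int.gcd_comm d b, ← Int.gcd_assoc]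
      exact hg
    obtain ⟨n, hn, hs⟩ := core ha h hg' hdiv hf hε N
    refine ⟨n, hn, ?_⟩
    simp_rw [norm_sub_rev] at hs ⊢
    exact hs
  · refine ⟨N, le_rfl, ?_⟩
    rw [h]
    simpa using hε
  · have hdiv : (a : ℤ) ∣ b * d := by
      rcases hor with h' | h'
      · omega
      · exact h'
    exact core ha h hg hdiv hf hε N

end Pool.Agent.H81.RC
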