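import Pool.Agent.H81.OutOfList.RCSets

/-!
# Measurable multiplicative recurrence along ratios of linear forms
-/

set_option autoImplicit false

open MeasureTheory

namespace Pool.Agent.H81.RC

/-- pigeonhole for sets of equal positive measure in a probability space -/
lemma pigeon_meas {X : Type} [MeasurableSpace X] (μ : Measure X) [IsProbabilityMeasure μ] {m : ENNReal} (hm : 0 < m) :
    ∃ k : ℕ, 0 < k ∧ ∀ A : ℕ → Set X, (∀ i < k, MeasurableSet (A i)) → (∀ i < k, μ (A i) = m) →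
      ∃ i j, i < j ∧ j < k ∧ 0 < μ (A i ∩ A j) := by
  obtain ⟨k, hk⟩ := ENNReal.exists_nat_mul_gt hm.ne' ENNReal.one_ne_top
  refine ⟨k, ?_, fun A hA hmA => ?_⟩
  · rcases Nat.eq_zero_or_pos k with h | h
    · rw [h] at hk
      simp at hk
    · exact h
  · by_contra hcon
    push Not at hcon
    have hpair : Set.Pairwise (↑(Finset.range k)) (Function.onFun (AEDisjoint μ) A) := by
      intro i hi j hj hij
      have hi' := Finset.mem_range.1 hi
      have hj' := Finset.mem_range.1 hj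
      rcases Nat.lt_or_gt_of_ne hij with h | h
      · exact nonpos_iff_eq_zero.1 (hcon i j h hj')
      · have := nonpos_iff_eq_zero.1 (hcon j i h hi')
        rw [Set.inter_comm] at this
        exact this
    have hle := sum_measure_le_measure_univ (μ := μ) (s := Finset.range k) (t := A)
      (fun i hi => (hA i (Finset.mem_range.1 hi)).nullMeasurableSet) hpair
    rw [measure_univ, Finset.sum_congr rfl fun i hi => hmA i (Finset.mem_range.1 hi), Finset.sum_const,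
      Finset.card_range, nsmul_eq_mul] at hle
    exact absurd hk (not_lt.2 hle)

theorem meas_core {a : ℕ} (ha : 0 < a) {b d : ℤ} (hbd : d < b)
    (hg : ∀ k : ℤ, k ∣ (a : ℤ) → k ∣ b → k ∣ d → IsUnit k) (hdiv : (a : ℤ) ∣ b * d)
    (X : Type) [MeasurableSpace X] (μ : Measure X) [IsProbabilityMeasure μ] (T : ℚ → X → X)
    (hmul : ∀ q r : ℚ, 0 < q → 0 < r → T (q * r) = T q ∘ T r)
    (hT : ∀ q : ℚ, 0 < q → MeasurePreserving (T q) μ μ) (A : Set X) (hA : MeasurableSet A) (hpos : 0 < μ A) :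
    ∃ n : ℕ, 0 < n ∧ 0 < (a : ℤ) * n + b ∧ 0 < (a : ℤ) * n + d ∧
      0 < μ (A ∩ T (((a : ℚ) * n + b) / ((a : ℚ) * n + d)) ⁻¹' A) ∧
      0 < μ (A ∩ T (((a : ℚ) * n + d) / ((a : ℚ) * n + b)) ⁻¹' A) := by
  obtain ⟨a₁, ha1⟩ : ∃ a₁ : ℤ, a₁ = ((Int.gcd (a : ℤ) b : ℕ) : ℤ) := ⟨_, rfl⟩
  have ha1pos : 0 < a₁ := by
    rw [ha1]
    exact_mod_cast Int.gcd_pos_of_ne_zero_left b (by exact_mod_cast ha.ne')
  have ha1a : a₁ ∣ (a : ℤ) := by rw [ha1]; exact Int.gcd_dvd_left _ _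
  have ha1b : a₁ ∣ b := by rw [ha1]; exact Int.gcd_dvd_right _ _
  obtain ⟨a₂, ha2⟩ := ha1a
  obtain ⟨b', hb'⟩ := ha1b
  have haZ : (0:ℤ) < a := by exact_mod_cast ha
  have ha2pos : 0 < a₂ := by
    by_contra hneg
    push Not at hneg
    have : a₁ * a₂ ≤ 0 := mul_nonpos_of_nonneg_of_nonpos ha1pos.le hneg
    rw [← ha2] at this
    linarith
  have hcopd : IsCoprime a₁ d := by
    rw [Int.isCoprime_iff_gcd_eq_one]
    have h1 : ((Int.gcd a₁ d : ℕ) : ℤ) ∣ a₁ := Int.gcd_dvd_left _ _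
    have h2 : ((Int.gcd a₁ d : ℕ) : ℤ) ∣ d := Int.gcd_dvd_right _ _
    have h3 := hg _ (h1.trans ⟨a₂, ha2⟩) (h1.trans ⟨b', hb'⟩) h2
    have h4 := Int.isUnit_iff_natAbs_eq.1 h3
    simpa using h4
  have hcopb : IsCoprime a₂ b' := by
    rw [Int.isCoprime_iff_gcd_eq_one]
    have h1 : ((Int.gcd (a : ℤ) b : ℕ) : ℤ) = a₁ := ha1.symm
    have h2 : Int.gcd (a₁ * a₂) (a₁ * b') = a₁.natAbs * Int.gcd a₂ b' := Int.gcd_mul_left a₁ a₂ b'
    rw [← ha2, ← hb'] at h2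
    have h3 : Int.gcd (a : ℤ) b = a₁.natAbs := by
      rw [← h1]
      simp
    rw [h3] at h2
    have h4 : 0 < a₁.natAbs := Int.natAbs_pos.2 ha1pos.ne'
    exact Nat.eq_of_mul_eq_mul_left h4 (by rw [mul_one]; exact h2.symm)
  have ha2d : a₂ ∣ d := by
    have h1 : a₁ * a₂ ∣ a₁ * (b' * d) := by
      rw [← ha2, ← mul_assoc, ← hb']
      exact hdiv
    have h2 : a₂ ∣ b' * d := (mul_dvd_mul_iff_left ha1pos.ne').1 h1
    exact hcopb.dvd_of_dvd_mul_left h2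
  have hcop : IsCoprime a₁ a₂ := IsCoprime.of_isCoprime_of_dvd_right hcopd ha2d
  obtain ⟨k, hk, hpig⟩ := pigeon_meas μ hpos
  obtain ⟨c, hc0, hc⟩ := sets_large (h := b - d) ha1pos ha2pos hcop ⟨b', hb'⟩ ha2d (by linarith) rfl k hk 1
  have hcQ : ∀ i, i < k → (0:ℚ) < (c i : ℚ) := fun i hi => by exact_mod_cast hc0 i hi
  obtain ⟨i, j, hij, hj, hsum⟩ := hpig (fun i => T (c i : ℚ) ⁻¹' A) (fun i hi => (hT _ (hcQ i hi)).measurable hA)
    (fun i hi => (hT _ (hcQ i hi)).measure_preimage hA.nullMeasurableSet)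
  obtain ⟨n, hn, hposd, hrat⟩ := hc i j hij hj
  have hi := hij.trans hj
  have hnn : ((n.toNat : ℕ) : ℤ) = n := Int.toNat_of_nonneg (by omega)
  have hnQ : ((n.toNat : ℕ) : ℚ) = (n : ℚ) := by exact_mod_cast hnn
  have hposb : 0 < a₁ * a₂ * n + b := by linarith
  rw [← ha2] at hposd hposb hrat
  have hdQ : (0:ℚ) < (a : ℚ) * n + d := by exact_mod_cast hposd
  have hbQ : (0:ℚ) < (a : ℚ) * n + b := by exact_mod_cast hposb
  have hratQ : (c j : ℚ) * ((a : ℚ) * n + d) = c i * ((a : ℚ) * n + b) := by exact_mod_cast hrat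
  refine ⟨n.toNat, by omega, by rw [hnn]; exact hposb, by rw [hnn]; exact hposd, ?_, ?_⟩
  · rw [hnQ]
    have e1 : T (c j : ℚ) = T (((a : ℚ) * n + b) / ((a : ℚ) * n + d)) ∘ T (c i : ℚ) := by
      rw [← hmul _ _ (div_pos hbQ hdQ) (hcQ i hi)]
      congr 1
      rw [div_mul_eq_mul_div, eq_div_iff hdQ.ne', hratQ]
      ring
    have e2 : T (c i : ℚ) ⁻¹' A ∩ T (c j : ℚ) ⁻¹' A =
        T (c i : ℚ) ⁻¹' (A ∩ T (((a : ℚ) * n + b) / ((a : ℚ) * n + d)) ⁻¹' A) := by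
      rw [e1, Set.preimage_inter, Set.preimage_comp]
    have h3 : 0 < μ (T (c i : ℚ) ⁻¹' A ∩ T (c j : ℚ) ⁻¹' A) := hsum
    rw [e2, (hT _ (hcQ i hi)).measure_preimage
      (hA.inter ((hT _ (div_pos hbQ hdQ)).measurable hA)).nullMeasurableSet] at h3
    exact h3
  · rw [hnQ]
    have e1 : T (c i : ℚ) = T (((a : ℚ) * n + d) / ((a : ℚ) * n + b)) ∘ T (c j : ℚ) := by
      rw [← hmul _ _ (div_pos hdQ hbQ) (hcQ j hj)]
      congr 1
      rw [div_mul_eq_mul_div, eq_div_iff hbQ.ne', ← hratQ]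
      ring
    have e2 : T (c i : ℚ) ⁻¹' A ∩ T (c j : ℚ) ⁻¹' A =
        T (c j : ℚ) ⁻¹' (A ∩ T (((a : ℚ) * n + d) / ((a : ℚ) * n + b)) ⁻¹' A) := by
      rw [e1, Set.preimage_inter, Set.preimage_comp, Set.inter_comm]
    have h3 : 0 < μ (T (c i : ℚ) ⁻¹' A ∩ T (c j : ℚ) ⁻¹' A) := hsum
    rw [e2, (hT _ (hcQ j hj)).measure_preimage
      (hA.inter ((hT _ (div_pos hdQ hbQ)).measurable hA)).nullMeasurableSet] at h3
    exact h3

theorem meas_main :
    ∀ (a : ℕ) (b d : ℤ), 0 < a →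
      (∀ k : ℤ, k ∣ (a : ℤ) → k ∣ b → k ∣ d → IsUnit k) →
      (b = d ∨ (a : ℤ) ∣ b * d) →
      ∀ (X : Type) [MeasurableSpace X] (μ : Measure X) [IsProbabilityMeasure μ]
        (T : ℚ → X → X),
        T 1 = id →
        (∀ q r : ℚ, 0 < q → 0 < r → T (q * r) = T q ∘ T r) →
        (∀ q : ℚ, 0 < q → MeasurePreserving (T q) μ μ) →
        ∀ A : Set X, MeasurableSet A → 0 < μ A →
          ∃ n : ℕ, 0 < n ∧ 0 < (a : ℤ) * n + b ∧ 0 < (a : ℤ) * n + d ∧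
            0 < μ (A ∩ T (((a : ℚ) * n + b) / ((a : ℚ) * n + d)) ⁻¹' A) := by
  intro a b d ha hg hor X _ μ _ T h1 hmul hT A hA hpos
  rcases lt_trichotomy b d with h | h | h
  · have hdiv : (a : ℤ) ∣ d * b := by
      rcases hor with h' | h'
      · omega
      · rwa [mul_comm]
    obtain ⟨n, hn, hd, hb, -, hres⟩ := meas_core ha h (fun k h1 h2 h3 => hg k h1 h3 h2) hdiv X μ T hmul hT A hA hpos
    exact ⟨n, hn, hb, hd, hres⟩
  · subst h
    have haZ : (1:ℤ) ≤ a := by exact_mod_cast ha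
    have hp : 0 < (a : ℤ) * ((b.natAbs + 1 : ℕ) : ℤ) + b := by
      have h2 : ((b.natAbs : ℕ) : ℤ) = |b| := Int.natCast_natAbs b
      push_cast
      rw [← Int.natCast_natAbs b] at *
      have h3 : -((b.natAbs : ℕ) : ℤ) ≤ b := by omega
      nlinarith [Int.natCast_nonneg b.natAbs]
    obtain ⟨m, hm⟩ : ∃ m : ℕ, m = b.natAbs + 1 := ⟨_, rfl⟩
    rw [← hm] at hp
    refine ⟨m, by omega, hp, hp, ?_⟩
    have hq : ((a : ℚ) * (m : ℚ) + b) ≠ 0 := by
      have : (0:ℚ) < ((a : ℚ) * (m : ℚ) + b) := by exact_mod_cast hp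
      exact this.ne'
    rw [div_self hq, h1, Set.preimage_id, Set.inter_self]
    exact hpos
  · have hdiv : (a : ℤ) ∣ b * d := by
      rcases hor with h' | h'
      · omega
      · exact h'
    obtain ⟨n, hn, hb, hd, hres, -⟩ := meas_core ha h hg hdiv X μ T hmul hT A hA hpos
    exact ⟨n, hn, hb, hd, hres⟩

end Pool.Agent.H81.RC
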