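import Mathlib

/-!
# Sets of integers with prescribed ratios

For `a = a₁ a₂` (coprime), `a₁ ∣ b`, `a₂ ∣ d`, `h = b - d > 0` and every `k` there are positive integers
`c_0 < ... < c_{k-1}` such that for all `i < j` the ratio `c_j / c_i` has the form `(a n + b) / (a n + d)`.
-/

set_option autoImplicit false

namespace Pool.Agent.H81.RC

/-- the property of the sets -/
def QQ (a h d : ℤ) (k : ℕ) (c : ℕ → ℤ) : Prop :=
  (∀ i, i < k → 0 < c i) ∧ ∀ i j, i < j → j < k → c i < c j ∧ ∃ t : ℤ, 0 < t ∧ a ∣ t - d ∧ c j * t = c i * (t + h)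

lemma split (m : ℕ) : ∀ n : ℕ, 0 < n → ∃ F R s : ℕ, n = F * R ∧ Nat.Coprime F m ∧ R ∣ m ^ s := by
  intro n
  induction n using Nat.strong_induction_on with
  | _ n ih =>
    intro hn
    by_cases hc : Nat.Coprime n m
    · exact ⟨n, 1, 0, by simp, hc, by simp⟩
    · have hg : 1 < Nat.gcd n m := by
        have h1 : Nat.gcd n m ≠ 1 := hc
        have h2 : 0 < Nat.gcd n m := Nat.gcd_pos_of_pos_left m hn
        omega
      obtain ⟨n', hn'⟩ := Nat.gcd_dvd_left n m
      have hn'0 : 0 < n' := by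
        rcases Nat.eq_zero_or_pos n' with h | h
        · rw [h, mul_zero] at hn'
          omega
        · exact h
      have hlt : n' < n := by
        calc n' = 1 * n' := by ring
          _ < Nat.gcd n m * n' := Nat.mul_lt_mul_of_pos_right hg hn'0
          _ = n := hn'.symm
      obtain ⟨F, R, s, h1, h2, h3⟩ := ih n' hlt hn'0
      refine ⟨F, Nat.gcd n m * R, s + 1, ?_, h2, ?_⟩
      · rw [hn']
        conv_lhs => rw [h1]
        rw [← hn']
        ring
      · rw [pow_succ, mul_comm (m ^ s)]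
        exact Nat.mul_dvd_mul (Nat.gcd_dvd_right n m) h3

/-- solving a congruence by a large number -/
lemma solve {A M u B : ℤ} (hM : 0 < M) (h : IsCoprime A M) : ∃ y : ℤ, B ≤ y ∧ 0 ≤ y ∧ M ∣ A * y + u := by
  obtain ⟨x, z, hxz⟩ := h
  refine ⟨-u * x + M * (|u * x| + |B|), ?_, ?_, ?_⟩
  · have h1 := neg_abs_le (u * x)
    have h2 := le_abs_self (u * x)
    have h3 := le_abs_self B
    have h4 := abs_nonneg (u * x)
    have h5 := abs_nonneg B
    nlinarith
  · have h2 := le_abs_self (u * x)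
    have h4 := abs_nonneg (u * x)
    have h5 := abs_nonneg B
    nlinarith
  · refine ⟨z * u + A * (|u * x| + |B|), ?_⟩
    linear_combination (-u) * hxz

/-- shifting a set -/
lemma shift {a h d : ℤ} (ha : 0 < a) (hh : 0 < h) {k : ℕ} {c : ℕ → ℤ} (hc : QQ a h d k c) {y : ℤ} (hy : 0 ≤ y)
    (hdiv : ∀ i j, i < j → j < k → a * (c j - c i) ∣ y) :
    QQ a h d k (fun i => y + c i) := by
  refine ⟨fun i hi => by have := hc.1 i hi; show 0 < y + c i; linarith, fun i j hij hj => ?_⟩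
  obtain ⟨h1, t, ht, hat, hct⟩ := hc.2 i j hij hj
  refine ⟨by show y + c i < y + c j; linarith, ?_⟩
  obtain ⟨w, hw⟩ := hdiv i j hij hj
  have hD : 0 < c j - c i := by linarith
  have hw0 : 0 ≤ w := by
    by_contra hneg
    push Not at hneg
    have : a * (c j - c i) * w < 0 := mul_neg_of_pos_of_neg (by positivity) hneg
    linarith
  refine ⟨t + h * a * w, by positivity, ?_, ?_⟩
  · obtain ⟨v, hv⟩ := hat
    exact ⟨v + h * w, by linear_combination hv⟩
  · show (y + c j) * (t + h * a * w) = (y + c i) * (t + h * a * w + h)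
    linear_combination hct - h * hw

/-- a common multiple of the differences -/
lemma common {k : ℕ} {c : ℕ → ℤ} (hc : ∀ i j, i < j → j < k → c i < c j) :
    ∃ G : ℤ, 0 < G ∧ ∀ i j, i < j → j < k → (c j - c i) ∣ G := by
  refine ⟨∏ p ∈ (Finset.range k ×ˢ Finset.range k).filter (fun p => p.1 < p.2), (c p.2 - c p.1), ?_, ?_⟩
  · apply Finset.prod_pos
    intro p hp
    rw [Finset.mem_filter, Finset.mem_product, Finset.mem_range, Finset.mem_range] at hp
    have := hc p.1 p.2 hp.2 hp.1.2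
    linarith
  · intro i j hij hj
    have : (i, j) ∈ (Finset.range k ×ˢ Finset.range k).filter (fun p => p.1 < p.2) := by
      rw [Finset.mem_filter, Finset.mem_product, Finset.mem_range, Finset.mem_range]
      exact ⟨⟨by omega, hj⟩, hij⟩
    exact Finset.dvd_prod_of_mem (fun p : ℕ × ℕ => c p.2 - c p.1) this

/-- the induction step -/
lemma step {a₁ a₂ b d h : ℤ} (ha1 : 0 < a₁) (ha2 : 0 < a₂) (hcop : IsCoprime a₁ a₂) (hb : a₁ ∣ b) (hd : a₂ ∣ d)
    (hh : 0 < h) (hbd : b - d = h) {k : ℕ} (hk : 0 < k) {c : ℕ → ℤ} (hc : QQ (a₁ * a₂) h d k c) :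
    ∃ c' : ℕ → ℤ, QQ (a₁ * a₂) h d (k + 1) c' := by
  obtain ⟨G, hG0, hG⟩ := common fun i j hij hj => (hc.2 i j hij hj).1
  have haG : 0 < a₁ * a₂ * G := by positivity
  -- splitting off the part composed of the primes of `a₂`
  obtain ⟨F, R, s, hFR, hF, hR⟩ := split a₂.toNat (a₁ * a₂ * G).toNat (by omega)
  have hFR' : a₁ * a₂ * G = (F : ℤ) * R := by
    have : (((a₁ * a₂ * G).toNat : ℕ) : ℤ) = ((F * R : ℕ) : ℤ) := by rw [hFR]
    rw [Int.toNat_of_nonneg haG.le] at this
    rw [this]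
    push_cast
    ring
  have ha2' : ((a₂.toNat : ℕ) : ℤ) = a₂ := Int.toNat_of_nonneg ha2.le
  have hF' : IsCoprime (F : ℤ) a₂ := by
    rw [← ha2']
    exact Nat.isCoprime_iff_coprime.2 hF
  have hR' : (R : ℤ) ∣ a₂ ^ s := by
    rw [← ha2']
    exact_mod_cast hR
  have hF0 : 0 < (F : ℤ) := by
    rcases Nat.eq_zero_or_pos F with h0 | h0
    · rw [h0] at hFR'
      simp at hFR'
      omega
    · exact_mod_cast h0
  have hck : 0 < c (k - 1) := hc.1 _ (by omega)
  have hcle : ∀ i, i < k → c i ≤ c (k - 1) := by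
    intro i hi
    rcases Nat.lt_or_ge i (k - 1) with h1 | h1
    · exact (hc.2 i (k - 1) h1 (by omega)).1.le
    · have : i = k - 1 := by omega
      rw [this]
  obtain ⟨u₁, hu₁⟩ : ∃ u₁ : ℤ, u₁ = a₂ * c (k - 1) + 1 := ⟨_, rfl⟩
  have hu1cop : IsCoprime u₁ a₂ := ⟨1, -c (k - 1), by rw [hu₁]; ring⟩
  obtain ⟨u, hu⟩ : ∃ u : ℤ, u = F * u₁ := ⟨_, rfl⟩
  have hucop : IsCoprime u a₂ := by
    rw [hu]
    exact hF'.mul_left hu1cop
  have hu1pos : 0 < u₁ := by rw [hu₁]; positivity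
  have hugt : ∀ i, i < k → a₂ * c i < u := by
    intro i hi
    have h1 : a₂ * c i ≤ a₂ * c (k - 1) := mul_le_mul_of_nonneg_left (hcle i hi) ha2.le
    have h2 : u₁ ≤ F * u₁ := by nlinarith
    rw [hu]
    linarith
  obtain ⟨U, hU⟩ : ∃ U : ℤ, U = ∏ i ∈ Finset.range k, (u - a₂ * c i) := ⟨_, rfl⟩
  have hU0 : 0 < U := by
    rw [hU]
    apply Finset.prod_pos
    intro i hi
    have := hugt i (Finset.mem_range.1 hi)
    linarith
  have hδcop : ∀ i, IsCoprime (u - a₂ * c i) a₂ := by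
    intro i
    obtain ⟨x, z, hxz⟩ := hucop
    exact ⟨x, z + x * c i, by linear_combination hxz⟩
  have hUcop : IsCoprime U a₂ := by
    rw [hU]
    exact IsCoprime.prod_left fun i _ => hδcop i
  have hAM : IsCoprime (a₂ * R) (a₁ * U) := by
    have h1 : IsCoprime a₂ (a₁ * U) := (hcop.symm).mul_right hUcop.symm
    have h2 : IsCoprime (R : ℤ) (a₁ * U) := by
      refine IsCoprime.of_isCoprime_of_dvd_left ?_ hR'
      exact h1.pow_left
    exact h1.mul_left h2
  obtain ⟨y₂, -, hy0, hy⟩ := solve (B := 0) (u := u₁) (by positivity : 0 < a₁ * U) hAM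
  obtain ⟨y, hydef⟩ : ∃ y : ℤ, y = a₁ * a₂ * G * y₂ := ⟨_, rfl⟩
  have hy00 : 0 ≤ y := by rw [hydef]; positivity
  have hyU : a₁ * U ∣ a₂ * y + u := by
    have : a₂ * y + u = F * (a₂ * R * y₂ + u₁) := by
      rw [hydef, hFR', hu]
      ring
    rw [this]
    exact Dvd.dvd.mul_left hy _
  have hsh := shift (by positivity) hh hc hy00 (fun i j hij hj => by
    rw [hydef]
    obtain ⟨w, hw⟩ := hG i j hij hj
    exact ⟨w * y₂, by rw [hw]; ring⟩)
  refine ⟨fun i => if i < k then a₂ * (y + c i) else a₂ * y + u, ?_, ?_⟩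
  · intro i _
    by_cases hi : i < k
    · simp only [hi, if_true]
      have := hsh.1 i hi
      positivity
    · simp only [hi, if_false]
      have : 0 < u := by rw [hu]; positivity
      positivity
  · intro i j hij hj
    have hik : i < k := by omega
    simp only [hik, if_true]
    by_cases hjk : j < k
    · simp only [hjk, if_true]
      obtain ⟨h1, t, ht, hat, hct⟩ := hsh.2 i j hij hjk
      refine ⟨by
        have h1' : y + c i < y + c j := h1
        exact mul_lt_mul_of_pos_left h1' ha2, t, ht, hat, ?_⟩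
      have hct' : (y + c j) * t = (y + c i) * (t + h) := hct
      linear_combination a₂ * hct'
    · simp only [hjk, if_false]
      have hδ0 : 0 < u - a₂ * c i := by have := hugt i hik; linarith
      have hδU : u - a₂ * c i ∣ U := by
        rw [hU]
        exact Finset.dvd_prod_of_mem (fun i => u - a₂ * c i) (Finset.mem_range.2 hik)
      obtain ⟨q, hq⟩ := (mul_dvd_mul_left a₁ hδU).trans hyU
      -- `a₂ (y + c i) = δ (a₁ q - 1)`
      have hq1 : a₂ * (y + c i) = (u - a₂ * c i) * (a₁ * q - 1) := by linear_combination hq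
      have hdiv : a₂ ∣ (a₁ * q - 1) := by
        have : a₂ ∣ (u - a₂ * c i) * (a₁ * q - 1) := ⟨y + c i, hq1.symm⟩
        exact (hδcop i).symm.dvd_of_dvd_mul_left this
      have hpos : 0 < a₁ * q - 1 := by
        have h1 : 0 < a₂ * (y + c i) := by
          have := hc.1 i hik
          positivity
        rw [hq1] at h1
        exact (pos_iff_pos_of_mul_pos h1).1 hδ0
      refine ⟨by linarith [hδ0], h * (a₁ * q - 1), by positivity, ?_, ?_⟩
      · apply hcop.mul_dvd
        · obtain ⟨b', hb'⟩ := hb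
          refine ⟨h * q - b', ?_⟩
          have : d = b - h := by linarith
          rw [this, hb']
          ring
        · obtain ⟨e, he⟩ := hdiv
          obtain ⟨d', hd'⟩ := hd
          exact ⟨h * e - d', by rw [he, hd']; ring⟩
      · linear_combination (-h) * hq1

/-- sets of all sizes -/
theorem sets {a₁ a₂ b d h : ℤ} (ha1 : 0 < a₁) (ha2 : 0 < a₂) (hcop : IsCoprime a₁ a₂) (hb : a₁ ∣ b) (hd : a₂ ∣ d)
    (hh : 0 < h) (hbd : b - d = h) : ∀ k : ℕ, 0 < k → ∃ c : ℕ → ℤ, QQ (a₁ * a₂) h d k c := by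
  intro k hk
  induction k with
  | zero => omega
  | succ k ih =>
    rcases Nat.eq_zero_or_pos k with h0 | h0
    · subst h0
      exact ⟨fun _ => 1, fun i _ => one_pos, fun i j hij hj => by omega⟩
    · obtain ⟨c, hc⟩ := ih h0
      exact step ha1 ha2 hcop hb hd hh hbd h0 hc

/-- sets of all sizes, with large `n` -/
theorem sets_large {a₁ a₂ b d h : ℤ} (ha1 : 0 < a₁) (ha2 : 0 < a₂) (hcop : IsCoprime a₁ a₂) (hb : a₁ ∣ b)
    (hd : a₂ ∣ d) (hh : 0 < h) (hbd : b - d = h) (k : ℕ) (hk : 0 < k) (B : ℤ) :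
    ∃ c : ℕ → ℤ, (∀ i, i < k → 0 < c i) ∧ ∀ i j, i < j → j < k →
      ∃ n : ℤ, B ≤ n ∧ 0 < a₁ * a₂ * n + d ∧ c j * (a₁ * a₂ * n + d) = c i * (a₁ * a₂ * n + b) := by
  obtain ⟨c, hc⟩ := sets ha1 ha2 hcop hb hd hh hbd k hk
  obtain ⟨G, hG0, hG⟩ := common fun i j hij hj => (hc.2 i j hij hj).1
  have ha : 0 < a₁ * a₂ := by positivity
  obtain ⟨y₂, hy₂⟩ : ∃ y₂ : ℤ, y₂ = |a₁ * a₂ * B| + |d| := ⟨_, rfl⟩
  have hy0 : 0 ≤ y₂ := by rw [hy₂]; positivity
  refine ⟨fun i => a₁ * a₂ * G * y₂ + c i, fun i hi => by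
    have := hc.1 i hi
    show 0 < a₁ * a₂ * G * y₂ + c i
    positivity, fun i j hij hj => ?_⟩
  obtain ⟨h1, t, ht, ⟨v, hv⟩, hct⟩ := hc.2 i j hij hj
  obtain ⟨w, hw⟩ := hG i j hij hj
  have hD : 0 < c j - c i := by linarith
  have hw0 : 0 < w := by
    by_contra hneg
    push Not at hneg
    have : (c j - c i) * w ≤ 0 := mul_nonpos_of_nonneg_of_nonpos hD.le hneg
    linarith
  refine ⟨v + h * w * y₂, ?_, ?_, ?_⟩
  · have h2 : a₁ * a₂ * B ≤ a₁ * a₂ * (v + h * w * y₂) := by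
      have hw1 : 1 ≤ h * w := Int.add_one_le_iff.2 (mul_pos hh hw0)
      have h3 : y₂ ≤ h * w * y₂ := le_mul_of_one_le_left hy0 hw1
      have h4 : y₂ ≤ a₁ * a₂ * (h * w * y₂) := h3.trans (le_mul_of_one_le_left (hy0.trans h3) (Int.add_one_le_iff.2 ha))
      have h5 := le_abs_self (a₁ * a₂ * B)
      have h6 := neg_abs_le d
      have h7 := le_abs_self d
      rw [mul_add, ← hv]
      linarith
    exact le_of_mul_le_mul_left h2 ha
  · have : a₁ * a₂ * (v + h * w * y₂) + d = t + a₁ * a₂ * (h * w * y₂) := by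
      rw [mul_add, ← hv]
      ring
    rw [this]
    positivity
  · show (a₁ * a₂ * G * y₂ + c j) * (a₁ * a₂ * (v + h * w * y₂) + d) =
      (a₁ * a₂ * G * y₂ + c i) * (a₁ * a₂ * (v + h * w * y₂) + b)
    have e1 : a₁ * a₂ * v = t - d := hv.symm
    have e2 : b = d + h := by linarith
    rw [e2]
    have e3 : a₁ * a₂ * (v + h * w * y₂) = t - d + a₁ * a₂ * (h * w * y₂) := by rw [mul_add, e1]
    rw [e3]
    linear_combination hct + (- a₁ * a₂ * h * y₂) * hw

end Pool.Agent.H81.RC
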